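import Pool.Agent.FS.GoogolLog.D
import Pool.Agent.FS.GoogolLog2.P
import Pool.Agent.FS.GoogolLog2.G

namespace Pool.Agent.Results.MP_d38296_lc.GoogolLog

open MeasureTheory Pool.Agent.Lib.MP_d38296_lc Pool.Agent.FS.GoogolLog

universe u

/-- For every fixed `n ≥ 3` the advantage of cardinal algorithms over an ordinal rule can be made
exponentially small in the number `N` of available values. -/
theorem result (n : ℕ) (hn : 3 ≤ n) : ∃ (C r : ℝ) (N₀ : ℕ), 0 < r ∧ r < 1 ∧ ∀ N : ℕ, N₀ ≤ N →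
    ∃ (D : Finset ℕ → ℝ) (B : List ℕ → Bool), IsInstance n N D ∧ IsOrdinal B ∧
      winProb (Measure.dirac ()) (fun _ : Unit => B) n N D ≤ 1 / Real.exp 1 + 1 / n ∧
      ∀ (Ω : Type u) [MeasurableSpace Ω] (μ : Measure Ω) [IsProbabilityMeasure μ]
        (A : Ω → List ℕ → Bool), (∀ h : List ℕ, MeasurableSet {ω | A ω h = true}) →
          winProb μ A n N D ≤ winProb (Measure.dirac ()) (fun _ : Unit => B) n N D +
            C * r ^ N := by
  obtain ⟨η, h0, h1, hs⟩ := exists_slack hn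
  obtain ⟨ρ, q, L, V, Δ, P⟩ := exists_par n h0 h1
  have hρ : 0 < ρ := zero_lt_one.trans P.one_lt
  have hq := P.q_pos
  have hL := P.L_pos
  have hr : 0 < √q := Real.sqrt_pos.2 hq
  have hz : 0 < (1 - η) ^ (n - 1) * L ^ (n - 1) := mul_pos (pow_pos (by linarith) _) (pow_pos hL _)
  refine ⟨n * (2 ^ n * (((V + n * Δ + 1 : ℕ) : ℝ) * (L + 1) ^ n / √q ^ (2 * (V + n * Δ) + 1))) /
    ((1 - η) ^ (n - 1) * L ^ (n - 1)), √q, 2 * (V + 1) + n, hr,
    (Real.sqrt_lt' one_pos).2 (by simpa using P.q_lt), fun N hN => ?_⟩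
  obtain ⟨D, h3, h4⟩ := glue.{u} hρ hq hL (N / 2) n N (by omega) hz (by positivity)
    (total_ge P h1 (by omega) (by omega)) (rule n) (det_le P h0 h1 hs N)
  refine ⟨D, rule n, h3, rule_ordinal n, ?_, fun Ω _ μ _ A hA => (h4 Ω μ A hA).trans ?_⟩
  · rw [winProb_rule (by omega) h3]
    exact Bv_zero_le (by omega)
  · have h5 := pow_half_le hq P.q_lt (V + n * Δ) N
    gcongr
    calc _ ≤ n * (2 ^ n * (((V + n * Δ + 1 : ℕ) : ℝ) * (L + 1) ^ n *
          (√q ^ N / √q ^ (2 * (V + n * Δ) + 1)))) / ((1 - η) ^ (n - 1) * L ^ (n - 1)) := by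
          gcongr
      _ = _ := by ring

end Pool.Agent.Results.MP_d38296_lc.GoogolLog
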