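import Pool.Agent.Lib.MP_d38296_lc.ShLow

namespace Pool.Agent.Results.MP_d38296_lc.GoogolLower

open MeasureTheory Pool.Agent.Lib.MP_d38296_lc

/-- Every instance on the `n`-subsets of `{1, ..., N}` admits a deterministic online cardinal
algorithm that wins with probability at least
`1 / e + (1 / (N - n + 1) ^ 2 + 1 / n) / 25000`. -/
theorem result (n N : ℕ) (hn : 1 ≤ n) (hN : n ≤ N) (D : Finset ℕ → ℝ) (hD : IsInstance n N D) :
    ∃ A : List ℕ → Bool, 1 / Real.exp 1 + (1 / ((N : ℝ) - n + 1) ^ 2 + 1 / n) / 25000 ≤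
      winProb (Measure.dirac ()) (fun _ : Unit => A) n N D := by
  obtain ⟨m, rfl⟩ := Nat.exists_eq_add_of_le hN
  obtain ⟨A, h⟩ := lower_sharp hn hD
  refine ⟨A, le_trans (le_of_eq ?_) h⟩
  rw [Nat.cast_add, add_sub_cancel_left]
  ring

end Pool.Agent.Results.MP_d38296_lc.GoogolLower
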