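import Pool.Agent.Lib.MP_d38296_lc.ShC
import Pool.Agent.Lib.MP_d38296_lc.UOrd

namespace Pool.Agent.Results.MP_d38296_lc.GoogolSqrt

open MeasureTheory Pool.Agent.Lib.MP_d38296_lc

universe u

/-- There is a constant `C` such that for `n ≤ N ≤ 2 n` there are an instance on the `n`-subsets
of `{1, ..., N}` and an ordinal rule `B`, winning with probability at most `1 / e + 1 / n`, such
that no randomized online cardinal algorithm wins with probability greater than that of `B` plus
`C / (N - n + 1) ^ 2`. -/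
theorem result : ∃ C : ℝ, ∀ n N : ℕ, 1 ≤ n → n ≤ N → N ≤ 2 * n →
    ∃ (D : Finset ℕ → ℝ) (B : List ℕ → Bool), IsInstance n N D ∧ IsOrdinal B ∧
      winProb (Measure.dirac ()) (fun _ : Unit => B) n N D ≤ 1 / Real.exp 1 + 1 / n ∧
      ∀ (Ω : Type u) [MeasurableSpace Ω] (μ : Measure Ω) [IsProbabilityMeasure μ]
        (A : Ω → List ℕ → Bool), (∀ h : List ℕ, MeasurableSet {ω | A ω h = true}) →
          winProb μ A n N D ≤ winProb (Measure.dirac ()) (fun _ : Unit => B) n N D +
            C / ((N : ℝ) - n + 1) ^ 2 := by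
  refine ⟨12000000000000, fun n N hn h1 h2 => ?_⟩
  obtain ⟨m, rfl⟩ := Nat.exists_eq_add_of_le h1
  obtain ⟨D, h3, h4⟩ := upper.{u} hn (show m ≤ n by omega)
  refine ⟨D, rule n, h3, rule_ordinal n, ?_, ?_⟩
  · rw [winProb_rule hn h3]
    exact Bv_zero_le hn
  · rw [winProb_rule hn h3, Nat.cast_add, add_sub_cancel_left]
    exact h4

end Pool.Agent.Results.MP_d38296_lc.GoogolSqrt
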