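import Pool.Agent.Lib.MP_d38296_lc.UMain

namespace Pool.Agent.Results.MP_d38296_lc.GoogolUniform

open MeasureTheory Pool.Agent.Lib.MP_d38296_lc

universe u

/-- For every `n ≥ 1` and every `0 < ε ≤ 1` there are an instance on the `n`-subsets of
`{1, ..., N}` with `N ≤ 104 n ^ 3 / ε ^ 2` and an ordinal rule `B`, winning with probability at
most `1 / e + 1 / n`, such that no randomized online cardinal algorithm wins with probability
greater than that of `B` plus `ε`. -/
theorem result (n : ℕ) (hn : 1 ≤ n) (ε : ℝ) (hε : 0 < ε) (hε1 : ε ≤ 1) :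
    ∃ (N : ℕ) (D : Finset ℕ → ℝ) (B : List ℕ → Bool),
      n ≤ N ∧ (N : ℝ) ≤ 104 * n ^ 3 / ε ^ 2 ∧ IsInstance n N D ∧ IsOrdinal B ∧
      winProb (Measure.dirac ()) (fun _ : Unit => B) n N D ≤ 1 / Real.exp 1 + 1 / n ∧
      ∀ (Ω : Type u) [MeasurableSpace Ω] (μ : Measure Ω) [IsProbabilityMeasure μ]
        (A : Ω → List ℕ → Bool), (∀ h : List ℕ, MeasurableSet {ω | A ω h = true}) →
          winProb μ A n N D ≤ winProb (Measure.dirac ()) (fun _ : Unit => B) n N D + ε := by
  obtain ⟨N, D, h1, h2, h3, h4⟩ := uniform.{u} n hn ε hε hε1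
  refine ⟨N, D, rule n, h1, h2, h3, rule_ordinal n, ?_, ?_⟩
  · rw [winProb_rule hn h3]
    exact Bv_zero_le hn
  · rw [winProb_rule hn h3]
    exact h4

end Pool.Agent.Results.MP_d38296_lc.GoogolUniform
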